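import Pool.Agent.Y490.UN.Seq

/-!
Isometric copies in `ℓ_p` of the two parts of a finite metric space, on almost the same sphere.
-/

set_option autoImplicit false

open Filter Topology

namespace Pool.Agent.Y490.UN

variable {p : ℝ}

/-- transfer to the index set `ℕ` -/
lemma transfer {ι : Type} (e : ℕ ≃ ι) {a : ι → ℝ} (ha : Summable fun i => |a i| ^ p) :
    (Summable fun n => |a (e n)| ^ p) ∧ ∑' n, |a (e n)| ^ p = ∑' i, |a i| ^ p :=
  ⟨(e.summable_iff (f := fun i => |a i| ^ p)).2 ha, e.tsum_eq (fun i => |a i| ^ p)⟩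

/-- the function `R ↦ (R ^ p + c) ^ (1 / p) - R` tends to zero -/
lemma tend (hp : 1 < p) {c : ℝ} (hc : 0 ≤ c) :
    Tendsto (fun R : ℝ => (R ^ p + c) ^ (1 / p) - R) atTop (𝓝 0) := by
  have hp0 : 0 < p := by linarith
  have h2 : Tendsto (fun R : ℝ => c * R ^ (-(p - 1))) atTop (𝓝 0) := by
    have := (tendsto_rpow_neg_atTop (by linarith : 0 < p - 1)).const_mul c
    simpa using this
  refine squeeze_zero' ?_ ?_ h2
  · filter_upwards [eventually_gt_atTop 0] with R hR
    have h1 : R ^ p ≤ R ^ p + c := by linarith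
    have h3 : (R ^ p) ^ (1 / p) ≤ (R ^ p + c) ^ (1 / p) :=
      Real.rpow_le_rpow (by positivity) h1 (by positivity)
    rw [← Real.rpow_mul hR.le, mul_one_div_cancel hp0.ne', Real.rpow_one] at h3
    linarith
  · filter_upwards [eventually_gt_atTop 0] with R hR
    have hRp : 0 < R ^ p := by positivity
    have hs : 0 ≤ c / R ^ p := by positivity
    have hB : 1 + p * (c / R ^ p) ≤ (1 + c / R ^ p) ^ p :=
      one_add_mul_self_le_rpow_one_add (by linarith) hp.le
    have h4 : R ^ p + c ≤ (R * (1 + c / R ^ p)) ^ p := by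
      rw [Real.mul_rpow hR.le (by linarith)]
      have h5 : 1 + c / R ^ p ≤ (1 + c / R ^ p) ^ p := by nlinarith
      have h6 : R ^ p * (1 + c / R ^ p) = R ^ p + c := by field_simp
      rw [← h6]
      exact mul_le_mul_of_nonneg_left h5 hRp.le
    have h7 : (R ^ p + c) ^ (1 / p) ≤ R * (1 + c / R ^ p) := by
      have := Real.rpow_le_rpow (by positivity) h4 (by positivity : 0 ≤ 1 / p)
      rwa [← Real.rpow_mul (by positivity), mul_one_div_cancel hp0.ne', Real.rpow_one] at this
    have h8 : R * (1 + c / R ^ p) = R + c * R ^ (-(p - 1)) := by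
      have : R ^ (-(p - 1)) = R / R ^ p := by
        rw [neg_sub, Real.rpow_sub hR, Real.rpow_one]
      rw [this]
      field_simp
    linarith

/-- the case `1 < p` -/
theorem good_gt (hp : 1 < p) {X : Type} [MetricSpace X] [Finite X] (φ : X → ℕ → ℝ)
    (hs : ∀ x, Summable fun i => |φ x i| ^ p) (K : ℝ) :
    ∃ (u : X → ℕ → ℝ) (h : X → ℝ), (∀ x, Summable fun i => |u x i| ^ p) ∧
      (∀ x, ∑' i, |u x i| ^ p = h x ^ p) ∧
      (∀ x y, ∑' i, |u x i - u y i| ^ p = ∑' i, |φ x i - φ y i| ^ p) ∧
      (∀ x, K ≤ h x) ∧ (∀ x, 0 < h x) ∧ (∀ x y, |h x - h y| ≤ dist x y) ∧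
      (∀ x y, dist x y ≤ h x + h y) := by
  have hp0 : p ≠ 0 := by linarith
  set c : X → ℝ := fun x => ∑' i, |φ x i| ^ p with hc
  have hc0 : ∀ x, 0 ≤ c x := fun x => tsum_nonneg fun i => by positivity
  set H : ℝ → X → ℝ := fun R x => (R ^ p + c x) ^ (1 / p) with hH
  have hlim : ∀ x, Tendsto (fun R => H R x - R) atTop (𝓝 0) := fun x => tend hp (hc0 x)
  have hbig : ∀ x, Tendsto (fun R => H R x) atTop atTop := by
    intro x
    have := (hlim x).add_atTop tendsto_id
    simpa using this
  have ev : ∀ᶠ R : ℝ in atTop, 0 < R ∧ ∀ x y, K ≤ H R x ∧ 0 < H R x ∧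
      |H R x - H R y| ≤ dist x y ∧ dist x y ≤ H R x + H R y := by
    refine (eventually_gt_atTop 0).and ?_
    rw [eventually_all]
    intro x
    rw [eventually_all]
    intro y
    refine ((hbig x).eventually_ge_atTop K).and (((hbig x).eventually_gt_atTop 0).and ?_)
    refine Filter.Eventually.and ?_ ?_
    · by_cases hxy : x = y
      · subst hxy; simp
      · have hd : 0 < dist x y := dist_pos.2 hxy
        have h1 : Tendsto (fun R => H R x - H R y) atTop (𝓝 0) := by
          have := (hlim x).sub (hlim y)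
          simpa using this
        have h2 := (Metric.tendsto_nhds.1 h1) _ hd
        filter_upwards [h2] with R hR
        rw [Real.dist_eq, sub_zero] at hR
        exact hR.le
    · filter_upwards [(hbig x).eventually_ge_atTop (dist x y), (hbig y).eventually_ge_atTop 0]
        with R h1 h2
      linarith
  obtain ⟨R, hR, hall⟩ := ev.exists
  -- the index set is `Option ℕ`
  have e : ℕ ≃ Option ℕ := (Denumerable.eqv (Option ℕ)).symm
  set w : X → Option ℕ → ℝ := fun x o => Option.elim o R (φ x) with hw
  have hsum : ∀ (a : Option ℕ → ℝ), (Summable fun n => a (some n)) → Summable a := by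
    intro a ha
    have hinj : Function.Injective (some : ℕ → Option ℕ) := Option.some_injective _
    have h1 : Summable (fun o : Option ℕ => o.elim 0 (fun n => a (some n))) := by
      rw [← hinj.summable_iff]
      · simpa [Function.comp_def] using ha
      · intro o ho
        cases o with
        | none => rfl
        | some n => exact absurd ⟨n, rfl⟩ ho
    have h2 : Summable (fun o : Option ℕ => o.elim (a none) (fun _ => (0 : ℝ))) := by
      refine summable_of_ne_finset_zero (s := {none}) ?_
      intro o ho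
      cases o with
      | none => simp at ho
      | some n => rfl
    refine (h1.add h2).congr ?_
    intro o
    cases o <;> simp
  have htsum : ∀ (a : Option ℕ → ℝ), (Summable fun n => a (some n)) →
      ∑' o, a o = a none + ∑' n, a (some n) := by
    intro a ha
    have hs' := hsum a ha
    rw [hs'.tsum_eq_add_tsum_ite none]
    congr 1
    have hinj : Function.Injective (some : ℕ → Option ℕ) := Option.some_injective _
    rw [← hinj.tsum_eq]
    · refine tsum_congr fun n => ?_
      simp
    · intro o ho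
      cases o with
      | none => simp at ho
      | some n => exact ⟨n, rfl⟩
  have hws : ∀ x, Summable fun o => |w x o| ^ p := by
    intro x
    exact hsum (fun o => |w x o| ^ p) (by simpa [hw] using hs x)
  have hwt : ∀ x, ∑' o, |w x o| ^ p = R ^ p + c x := by
    intro x
    rw [htsum (fun o => |w x o| ^ p) (by simpa [hw] using hs x)]
    simp [hw, hc, abs_of_pos hR]
  have hwd : ∀ x y, ∑' o, |w x o - w y o| ^ p = ∑' i, |φ x i - φ y i| ^ p := by
    intro x y
    rw [htsum (fun o => |w x o - w y o| ^ p)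
      (by simpa [hw] using summable_sub hp.le (hs x) (hs y))]
    simp [hw, Real.zero_rpow hp0]
  refine ⟨fun x n => w x (e n), H R, fun x => (transfer e (hws x)).1, fun x => ?_, fun x y => ?_,
    fun x => (hall x x).1, fun x => (hall x x).2.1, fun x y => (hall x y).2.2.1,
    fun x y => (hall x y).2.2.2⟩
  · rw [(transfer e (hws x)).2, hwt, hH]
    have h0 : 0 ≤ R ^ p + c x := add_nonneg (by positivity) (hc0 x)
    simp only
    rw [← Real.rpow_mul h0, one_div_mul_cancel hp0, Real.rpow_one]
  · rw [← hwd x y]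
    exact (transfer (a := fun o => w x o - w y o) e
      (summable_sub hp.le (hws x) (hws y))).2

/-- the case `p = 1` -/
theorem good_one {X : Type} [MetricSpace X] [Finite X] (φ : X → ℕ → ℝ)
    (hs : ∀ x, Summable fun i => |φ x i| ^ (1 : ℝ)) (K : ℝ) :
    ∃ (u : X → ℕ → ℝ) (h : X → ℝ), (∀ x, Summable fun i => |u x i| ^ (1 : ℝ)) ∧
      (∀ x, ∑' i, |u x i| ^ (1 : ℝ) = h x ^ (1 : ℝ)) ∧
      (∀ x y, ∑' i, |u x i - u y i| ^ (1 : ℝ) = ∑' i, |φ x i - φ y i| ^ (1 : ℝ)) ∧
      (∀ x, K ≤ h x) ∧ (∀ x, 0 < h x) ∧ (∀ x y, |h x - h y| ≤ dist x y) ∧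
      (∀ x y, dist x y ≤ h x + h y) := by
  cases nonempty_fintype X
  simp only [Real.rpow_one] at hs ⊢
  -- a bound for everything
  set B : ℝ := |K| + 1 + ∑ x : X, ∑ y : X, dist x y with hB
  have hsum0 : ∀ x y : X, dist x y ≤ ∑ x : X, ∑ y : X, dist x y := by
    intro x y
    calc dist x y ≤ ∑ y : X, dist x y :=
          Finset.single_le_sum (f := fun y => dist x y)
            (fun y _ => (dist_nonneg : 0 ≤ dist x y)) (Finset.mem_univ y)
      _ ≤ _ := Finset.single_le_sum (f := fun x => ∑ y : X, dist x y)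
            (fun x _ => Finset.sum_nonneg fun y _ => (dist_nonneg : 0 ≤ dist x y))
            (Finset.mem_univ x)
  have hsum1 : 0 ≤ ∑ x : X, ∑ y : X, dist x y :=
    Finset.sum_nonneg fun x _ => Finset.sum_nonneg fun y _ => (dist_nonneg : 0 ≤ dist x y)
  have hBK : K ≤ B := by
    have := le_abs_self K
    linarith
  have hB0 : 0 < B := by
    have := abs_nonneg K
    linarith
  have hBd : ∀ x y : X, dist x y ≤ B := by
    intro x y
    have := abs_nonneg K
    have := hsum0 x y
    linarith
  -- the common bound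
  set v : ℕ → ℝ := fun i => (∑ x : X, |φ x i|) + if i = 0 then B else 0 with hv
  have hvs : Summable v := by
    refine (summable_sum fun x _ => hs x).add ?_
    exact summable_of_ne_finset_zero (s := {0}) (by intro i hi; simp at hi; simp [hi])
  have hv0 : ∀ i, 0 ≤ v i := fun i =>
    add_nonneg (Finset.sum_nonneg fun _ _ => abs_nonneg _) (by split_ifs <;> linarith)
  have hvφ : ∀ x i, |φ x i| ≤ v i := by
    intro x i
    have h1 : |φ x i| ≤ ∑ x : X, |φ x i| :=
      Finset.single_le_sum (f := fun x => |φ x i|) (fun _ _ => abs_nonneg _) (Finset.mem_univ x)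
    have h2 : (0 : ℝ) ≤ if i = 0 then B else 0 := by split_ifs <;> linarith
    simp only [hv]
    linarith
  have hvB : B ≤ ∑' i, v i := by
    have h1 : v 0 ≤ ∑' i, v i := hvs.le_tsum 0 (fun i _ => hv0 i)
    have h2 : B ≤ v 0 := by
      have : 0 ≤ ∑ x : X, |φ x 0| := Finset.sum_nonneg fun _ _ => abs_nonneg _
      simp only [hv, if_true]
      linarith
    linarith
  have e : ℕ ≃ ℕ ⊕ ℕ := (Denumerable.eqv (ℕ ⊕ ℕ)).symm
  set w : X → ℕ ⊕ ℕ → ℝ := fun x => Sum.elim (fun i => v i + φ x i / 2) (fun i => v i - φ x i / 2)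
    with hw
  have a1 : ∀ x i, |v i + φ x i / 2| = v i + φ x i / 2 := by
    intro x i
    apply abs_of_nonneg
    have h1 := hvφ x i
    have h2 := neg_abs_le (φ x i)
    have h3 := hv0 i
    linarith
  have a2 : ∀ x i, |v i - φ x i / 2| = v i - φ x i / 2 := by
    intro x i
    apply abs_of_nonneg
    have h1 := hvφ x i
    have h2 := le_abs_self (φ x i)
    have h3 := hv0 i
    linarith
  have hφs : ∀ x, Summable fun i => φ x i := fun x => (hs x).of_abs
  have hsum : ∀ x, HasSum (fun o => |w x o|) (2 * ∑' i, v i) := by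
    intro x
    have s1 : HasSum (fun i => |w x (Sum.inl i)|) (∑' i, v i + (∑' i, φ x i) / 2) := by
      simp only [hw, Sum.elim_inl, a1]
      exact hvs.hasSum.add ((hφs x).hasSum.div_const 2)
    have s2 : HasSum (fun i => |w x (Sum.inr i)|) (∑' i, v i - (∑' i, φ x i) / 2) := by
      simp only [hw, Sum.elim_inr, a2]
      exact hvs.hasSum.sub ((hφs x).hasSum.div_const 2)
    have := HasSum.sum (f := fun o => |w x o|) s1 s2
    convert this using 1
    ring
  have hsumd : ∀ x y, HasSum (fun o => |w x o - w y o|) (∑' i, |φ x i - φ y i|) := by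
    intro x y
    have sd : Summable fun i => |φ x i - φ y i| := by
      have := summable_sub (p := 1) le_rfl (a := φ x) (b := φ y) (by simpa using hs x)
        (by simpa using hs y)
      simpa using this
    have s1 : HasSum (fun i => |w x (Sum.inl i) - w y (Sum.inl i)|)
        ((∑' i, |φ x i - φ y i|) / 2) := by
      have : (fun i => |w x (Sum.inl i) - w y (Sum.inl i)|) = fun i => |φ x i - φ y i| / 2 := by
        funext i
        simp only [hw, Sum.elim_inl]
        rw [show v i + φ x i / 2 - (v i + φ y i / 2) = (φ x i - φ y i) / 2 by ring, abs_div]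
        norm_num
      rw [this]
      exact sd.hasSum.div_const 2
    have s2 : HasSum (fun i => |w x (Sum.inr i) - w y (Sum.inr i)|)
        ((∑' i, |φ x i - φ y i|) / 2) := by
      have : (fun i => |w x (Sum.inr i) - w y (Sum.inr i)|) = fun i => |φ x i - φ y i| / 2 := by
        funext i
        simp only [hw, Sum.elim_inr]
        rw [show v i - φ x i / 2 - (v i - φ y i / 2) = -((φ x i - φ y i) / 2) by ring, abs_neg,
          abs_div]
        norm_num
      rw [this]
      exact sd.hasSum.div_const 2
    have := HasSum.sum (f := fun o => |w x o - w y o|) s1 s2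
    convert this using 1
    ring
  refine ⟨fun x n => w x (e n), fun _ => 2 * ∑' i, v i, fun x => ?_, fun x => ?_, fun x y => ?_,
    fun x => ?_, fun x => ?_, fun x y => ?_, fun x y => ?_⟩
  · exact (e.summable_iff (f := fun o => |w x o|)).2 (hsum x).summable
  · rw [e.tsum_eq (fun o => |w x o|)]
    exact (hsum x).tsum_eq
  · rw [e.tsum_eq (fun o => |w x o - w y o|)]
    exact (hsumd x y).tsum_eq
  · linarith
  · linarith
  · simpa using dist_nonneg
  · have := hBd x y
    linarith

end Pool.Agent.Y490.UN
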