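import Pool.Agent.Y490.UN.Seq

/-!
Gluing a sequence of metric spaces.
-/

set_option autoImplicit false

namespace Pool.Agent.Y490.UN

open scoped BigOperators

variable {p : ℝ}

/-- the `ℓ_p` norm of a pair -/
noncomputable def N (p a b : ℝ) : ℝ := (a ^ p + b ^ p) ^ (1 / p)

lemma N_comm (a b : ℝ) : N p a b = N p b a := by unfold N; rw [add_comm]

lemma N_nonneg {a b : ℝ} (ha : 0 ≤ a) (hb : 0 ≤ b) : 0 ≤ N p a b := by
  unfold N; positivity

lemma N_pow (hp : 1 ≤ p) {a b : ℝ} (ha : 0 ≤ a) (hb : 0 ≤ b) : N p a b ^ p = a ^ p + b ^ p := by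
  unfold N
  rw [← Real.rpow_mul (by positivity), one_div_mul_cancel (by linarith), Real.rpow_one]

lemma le_N_left (hp : 1 ≤ p) {a b : ℝ} (ha : 0 ≤ a) (hb : 0 ≤ b) : a ≤ N p a b := by
  have h : a ^ p ≤ N p a b ^ p := by
    rw [N_pow hp ha hb]
    have : 0 ≤ b ^ p := by positivity
    linarith
  exact (Real.rpow_le_rpow_iff ha (N_nonneg ha hb) (by linarith)).1 h

lemma le_N_right (hp : 1 ≤ p) {a b : ℝ} (ha : 0 ≤ a) (hb : 0 ≤ b) : b ≤ N p a b := by
  rw [N_comm]; exact le_N_left hp hb ha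

lemma N_le_add (hp : 1 ≤ p) {a b : ℝ} (ha : 0 ≤ a) (hb : 0 ≤ b) : N p a b ≤ a + b :=
  Real.rpow_add_rpow_le_add ha hb hp

lemma N_shift (hp : 1 ≤ p) {a a' c t : ℝ} (ha : 0 ≤ a) (ha' : 0 ≤ a') (hc : 0 ≤ c)
    (h : a' ≤ a + t) (ht : 0 ≤ t) : N p a' c ≤ t + N p a c := by
  have hp0 : 0 < p := by linarith
  have h1 : N p a' c ≤ N p (a + t) c := by
    unfold N
    have : a' ^ p ≤ (a + t) ^ p := Real.rpow_le_rpow ha' h hp0.le
    refine Real.rpow_le_rpow (by positivity) (by linarith) (by positivity)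
  have h2 := Real.Lp_add_le (Finset.univ : Finset (Fin 2)) (![a, c]) (![t, 0]) hp
  simp only [Fin.sum_univ_two, Matrix.cons_val_zero, Matrix.cons_val_one, add_zero, abs_zero,
    Real.zero_rpow hp0.ne'] at h2
  rw [abs_of_nonneg (by linarith : 0 ≤ a + t), abs_of_nonneg hc, abs_of_nonneg ha,
    abs_of_nonneg ht, ← Real.rpow_mul ht, mul_one_div_cancel hp0.ne', Real.rpow_one] at h2
  unfold N at h1 ⊢
  linarith

section

variable {X : ℕ → Type} [M : ∀ k, MetricSpace (X k)] (p) (h : ∀ k, X k → ℝ)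

open Classical in
/-- the distance on the disjoint union -/
noncomputable def D (a b : Σ k, X k) : ℝ :=
  if e : a.1 = b.1 then dist (e ▸ a.2 : X b.1) b.2 else N p (h a.1 a.2) (h b.1 b.2)

@[simp] lemma D_same (k : ℕ) (x y : X k) : D p h ⟨k, x⟩ ⟨k, y⟩ = dist x y := by
  simp [D]

lemma D_ne {k l : ℕ} (hkl : k ≠ l) (x : X k) (y : X l) :
    D p h ⟨k, x⟩ ⟨l, y⟩ = N p (h k x) (h l y) := by
  simp [D, hkl]

/-- the metric on the disjoint union -/
noncomputable abbrev glue (hp : 1 ≤ p) (h0 : ∀ k x, 0 < h k x)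
    (hL : ∀ k x y, |h k x - h k y| ≤ dist x y) (hS : ∀ k x y, dist x y ≤ h k x + h k y) :
    MetricSpace (Σ k, X k) where
  dist := D p h
  dist_self := by rintro ⟨k, x⟩; simp
  dist_comm := by
    rintro ⟨k, x⟩ ⟨l, y⟩
    by_cases e : k = l
    · subst e; simp [dist_comm]
    · rw [D_ne p h e, D_ne p h (Ne.symm e), N_comm]
  dist_triangle := by
    rintro ⟨k, x⟩ ⟨l, y⟩ ⟨m, z⟩
    have hx := (h0 k x).le
    have hy := (h0 l y).le
    have hz := (h0 m z).le
    by_cases e : k = l
    · subst e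
      by_cases e2 : k = m
      · subst e2; simpa using dist_triangle x y z
      · rw [D_ne p h e2, D_ne p h e2, D_same]
        refine N_shift hp hy hx hz ?_ dist_nonneg
        have := (abs_le.1 (hL k x y)).2
        linarith
    · by_cases e2 : l = m
      · subst e2
        rw [D_ne p h e, D_ne p h e, D_same, N_comm, N_comm (h k x), add_comm]
        refine N_shift hp hy hz hx ?_ dist_nonneg
        have := (abs_le.1 (hL l y z)).1
        linarith
      · rw [D_ne p h e, D_ne p h e2]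
        by_cases e3 : k = m
        · subst e3
          rw [D_same]
          have h1 := le_N_left hp hx hy
          have h2 := le_N_right hp hy hz
          have h3 := hS k x z
          linarith
        · rw [D_ne p h e3]
          have h1 := le_N_left hp hx hy
          have h2 := le_N_right hp hy hz
          have h3 := N_le_add hp hx hz
          linarith
  eq_of_dist_eq_zero := by
    rintro ⟨k, x⟩ ⟨l, y⟩ hd
    by_cases e : k = l
    · subst e
      have : dist x y = 0 := by simpa using hd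
      rw [dist_eq_zero.1 this]
    · exfalso
      have hd' : D p h ⟨k, x⟩ ⟨l, y⟩ = 0 := hd
      rw [D_ne p h e] at hd'
      have h1 := le_N_left hp (h0 k x).le (h0 l y).le
      have h2 := h0 k x
      linarith

end

/-! ### the embedding of one of the two parts -/

lemma block {g : ℕ → ℝ} (hg : Summable g) (k : ℕ) :
    (Summable fun j : ℕ × ℕ => if j.1 = k then g j.2 else 0) ∧
    ∑' j : ℕ × ℕ, (if j.1 = k then g j.2 else 0) = ∑' i, g i := by
  have hinj : Function.Injective (fun i : ℕ => (k, i)) := fun a b hab => (Prod.ext_iff.1 hab).2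
  constructor
  · rw [← hinj.summable_iff]
    · simpa [Function.comp_def] using hg
    · rintro ⟨m, i⟩ hx
      have : m ≠ k := by
        rintro rfl
        exact hx ⟨i, rfl⟩
      simp [this]
  · rw [← hinj.tsum_eq]
    · simp
    · rintro ⟨m, i⟩ hx
      have : m = k := by
        by_contra hne
        simp [hne] at hx
      subst this
      exact ⟨i, rfl⟩

theorem embed {X : ℕ → Type} [M : ∀ k, MetricSpace (X k)] [Fact (1 ≤ ENNReal.ofReal p)]
    (hp : 1 ≤ p) (h : ∀ k, X k → ℝ) (h0 : ∀ k x, 0 < h k x) (u : ∀ k, X k → ℕ → ℝ)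
    (hs : ∀ k x, Summable fun i => |u k x i| ^ p)
    (hn : ∀ k x, ∑' i, |u k x i| ^ p = h k x ^ p) (S : Set (Σ k, X k))
    (hd : ∀ k x y, (⟨k, x⟩ : Σ k, X k) ∈ S → (⟨k, y⟩ : Σ k, X k) ∈ S →
      ∑' i, |u k x i - u k y i| ^ p = dist x y ^ p) :
    ∃ f : S → Lp p, ∀ a b : S, ‖f a - f b‖ = D p h a.1 b.1 := by
  have hp0 : p ≠ 0 := by linarith
  have hD0 : ∀ a b : Σ k, X k, 0 ≤ D p h a b := by
    rintro ⟨k, x⟩ ⟨l, y⟩
    by_cases e : k = l
    · subst e; simp
    · rw [D_ne p h e]; exact N_nonneg (h0 k x).le (h0 l y).le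
  have e1 : ∀ (k : ℕ) (x : X k) (j : ℕ × ℕ),
      |(if j.1 = k then u k x j.2 else 0)| ^ p = if j.1 = k then |u k x j.2| ^ p else 0 := by
    intro k x j
    split_ifs
    · rfl
    · rw [abs_zero, Real.zero_rpow hp0]
  refine to_lp hp (Equiv.ofBijective _ Nat.pairEquiv.symm.bijective)
    (fun a : S => fun j : ℕ × ℕ => if j.1 = a.1.1 then u a.1.1 a.1.2 j.2 else 0) ?_
    (fun a b => D p h a.1 b.1) (fun a b => hD0 _ _) ?_
  · rintro ⟨⟨k, x⟩, hx⟩
    simp only [e1]
    exact (block (hs k x) k).1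
  · rintro ⟨⟨k, x⟩, hx⟩ ⟨⟨l, y⟩, hy⟩
    simp only
    by_cases e : k = l
    · subst e
      rw [D_same, ← hd k x y hx hy, ← (block (summable_sub hp (hs k x) (hs k y)) k).2]
      refine tsum_congr fun j => ?_
      split_ifs
      · rfl
      · rw [sub_zero, abs_zero, Real.zero_rpow hp0]
    · rw [D_ne p h e, N_pow hp (h0 k x).le (h0 l y).le, ← hn k x, ← hn l y,
        ← (block (hs k x) k).2, ← (block (hs l y) l).2,
        ← (block (hs k x) k).1.tsum_add (block (hs l y) l).1]
      refine tsum_congr fun j => ?_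
      by_cases h1 : j.1 = k
      · have h2 : ¬ j.1 = l := fun h2 => e (h1.symm.trans h2)
        simp only [h1, if_true, e, if_false, sub_zero, add_zero]
      · by_cases h2 : j.1 = l
        · have h3 : ¬ l = k := fun h3 => e h3.symm
          simp only [h2, h3, if_true, if_false, zero_sub, abs_neg, zero_add]
        · simp only [h1, h2, if_false, sub_zero, abs_zero, Real.zero_rpow hp0, add_zero]

end Pool.Agent.Y490.UN
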