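import Mathlib

/-!
Families of real functions on a countable index set, as maps into `ℓ_p`.
-/

set_option autoImplicit false

namespace Pool.Agent.Y490.UN

open scoped BigOperators

/-- The real sequence space `ℓ_p`. -/
abbrev Lp (p : ℝ) : Type := lp (fun _ : ℕ => ℝ) (ENNReal.ofReal p)

variable {p : ℝ}

lemma toReal_p (hp : 1 ≤ p) : (ENNReal.ofReal p).toReal = p :=
  ENNReal.toReal_ofReal (by linarith)

/-- a map into functions on an index set equivalent to `ℕ` gives a map into `ℓ_p` -/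
theorem to_lp {X ι : Type} [Fact (1 ≤ ENNReal.ofReal p)] (hp : 1 ≤ p) (e : ℕ ≃ ι)
    (F : X → ι → ℝ) (hs : ∀ x, Summable fun i => |F x i| ^ p) (d : X → X → ℝ)
    (hd0 : ∀ x y, 0 ≤ d x y)
    (hd : ∀ x y, ∑' i, |F x i - F y i| ^ p = d x y ^ p) :
    ∃ f : X → Lp p, ∀ x y, ‖f x - f y‖ = d x y := by
  have hp0 : 0 < (ENNReal.ofReal p).toReal := by rw [toReal_p hp]; linarith
  have hmem : ∀ x, Memℓp (fun n : ℕ => F x (e n)) (ENNReal.ofReal p) := by
    intro x
    refine memℓp_gen ?_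
    rw [toReal_p hp]
    have := (e.summable_iff (f := fun i => |F x i| ^ p)).2 (hs x)
    exact this
  refine ⟨fun x => ⟨fun n => F x (e n), hmem x⟩, fun x y => ?_⟩
  have h1 := lp.norm_rpow_eq_tsum hp0
    ((⟨fun n => F x (e n), hmem x⟩ : Lp p) - ⟨fun n => F y (e n), hmem y⟩)
  rw [toReal_p hp] at h1
  have h2 : ∑' n : ℕ, ‖((⟨fun n => F x (e n), hmem x⟩ : Lp p) -
      (⟨fun n => F y (e n), hmem y⟩ : Lp p) : Lp p) n‖ ^ p = d x y ^ p := by
    rw [← hd x y, ← e.tsum_eq]
    rfl
  rw [h2] at h1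
  have hpp : p ≠ 0 := by linarith
  exact (Real.rpow_left_inj (norm_nonneg _) (hd0 x y) hpp).1 h1

/-- conversely -/
theorem of_lp {X : Type} [Fact (1 ≤ ENNReal.ofReal p)] (hp : 1 ≤ p) (f : X → Lp p) :
    (∀ x, Summable fun n => |(f x : ℕ → ℝ) n| ^ p) ∧
    ∀ x y, ∑' n, |(f x : ℕ → ℝ) n - (f y : ℕ → ℝ) n| ^ p = ‖f x - f y‖ ^ p := by
  have hp0 : 0 < (ENNReal.ofReal p).toReal := by rw [toReal_p hp]; linarith
  constructor
  · intro x
    have := (lp.memℓp (f x)).summable hp0
    rw [toReal_p hp] at this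
    exact this
  · intro x y
    have h1 := lp.norm_rpow_eq_tsum hp0 (f x - f y)
    rw [toReal_p hp] at h1
    rw [h1]
    rfl

lemma summable_sub (hp : 1 ≤ p) {ι : Type} {a b : ι → ℝ} (ha : Summable fun i => |a i| ^ p)
    (hb : Summable fun i => |b i| ^ p) : Summable fun i => |a i - b i| ^ p := by
  have key : ∀ i, |a i - b i| ^ p ≤ (2 : ℝ) ^ p * (|a i| ^ p + |b i| ^ p) := by
    intro i
    have h1 : |a i - b i| ≤ 2 * max |a i| |b i| := by
      have := abs_sub (a i) (b i)
      have h2 := le_max_left |a i| |b i|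
      have h3 := le_max_right |a i| |b i|
      linarith
    have h4 : |a i - b i| ^ p ≤ (2 * max |a i| |b i|) ^ p :=
      Real.rpow_le_rpow (abs_nonneg _) h1 (by linarith)
    rw [Real.mul_rpow (by norm_num) (le_max_of_le_left (abs_nonneg _))] at h4
    refine h4.trans (mul_le_mul_of_nonneg_left ?_ (by positivity))
    have n1 : 0 ≤ |a i| ^ p := by positivity
    have n2 : 0 ≤ |b i| ^ p := by positivity
    rcases le_total |a i| |b i| with h | h
    · rw [max_eq_right h]; linarith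
    · rw [max_eq_left h]; linarith
  exact Summable.of_nonneg_of_le (fun i => by positivity) key ((ha.add hb).mul_left _)

end Pool.Agent.Y490.UN
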